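import Pool.Agent.H21.PB.WIN2

/-!
# Module WIN : existence of windows
-/

set_option autoImplicit false

open Pool.Agent.H10.PB Pool.Agent.H10.PS
open scoped commutatorElement

namespace Pool.Agent.H21.PB

theorem t_WIN (hNCL : T_NCL) (hWINA : T_WINA) : T_WIN := by
  intro r R N hs t hfi ht
  have := hs.Rn
  have := hs.Nn
  let _ : CommGroup (FG r ⧸ R) :=
    { (inferInstance : Group (FG r ⧸ R)) with
      mul_comm := ((Subgroup.Normal.quotient_commutative_iff_commutator_le (N := R)).mpr
        hs.comm).is_comm.comm }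
  let π : FG r →* FG r ⧸ N := QuotientGroup.mk' N
  let ρ : FG r →* FG r ⧸ R := QuotientGroup.mk' R
  have hπ : Function.Surjective π := QuotientGroup.mk'_surjective N
  have hρ : Function.Surjective ρ := QuotientGroup.mk'_surjective R
  let p : FG r ⧸ N →* FG r ⧸ R := QuotientGroup.lift N ρ (fun x hx =>
    (QuotientGroup.eq_one_iff x).mpr (hs.NR hx))
  have hpπ : ∀ x, p (π x) = ρ x := fun x => rfl
  have hp : Function.Surjective p := by
    intro y
    obtain ⟨x, rfl⟩ := hρ y
    exact ⟨π x, rfl⟩
  have hker : ∀ x, π x ∈ p.ker ↔ x ∈ R := by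
    intro x
    rw [MonoidHom.mem_ker, hpπ]
    exact QuotientGroup.eq_one_iff x
  have hB : ∀ x ∈ p.ker, ∀ y ∈ p.ker, x * y = y * x := by
    intro x hx y hy
    obtain ⟨x, rfl⟩ := hπ x
    obtain ⟨y, rfl⟩ := hπ y
    have h1 := hs.RR (Subgroup.commutator_mem_commutator ((hker x).mp hx) ((hker y).mp hy))
    have h2 : π ⁅x, y⁆ = 1 := (QuotientGroup.eq_one_iff _).mpr h1
    rw [map_commutatorElement] at h2
    exact commutatorElement_eq_one_iff_mul_comm.mp h2
  have hρt : ∀ k : ℤ, ρ t ^ k = 1 → k = 0 := by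
    intro k hk
    rw [← map_zpow] at hk
    exact ht k ((QuotientGroup.eq_one_iff _).mp hk)
  have hfi' : (Subgroup.zpowers (p (π t))).FiniteIndex := by
    have h1 : R ⊔ Subgroup.zpowers t ≤ (Subgroup.zpowers (ρ t)).comap ρ := by
      rw [sup_le_iff]
      constructor
      · intro x hx
        rw [Subgroup.mem_comap]
        have : ρ x = 1 := (QuotientGroup.eq_one_iff _).mpr hx
        rw [this]
        exact Subgroup.one_mem _
      · rw [Subgroup.zpowers_le]
        exact Subgroup.mem_zpowers _
    have h2 := Subgroup.finiteIndex_of_le h1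
    have h3 := h2.index_ne_zero
    rw [Subgroup.index_comap_of_surjective _ hρ] at h3
    exact ⟨h3⟩
  obtain ⟨S00, hS00⟩ := hNCL r R hs.Rn hs.comm
  have hn : Subgroup.normalClosure (π '' (S00 : Set (FG r))) = p.ker := by
    rw [← Subgroup.map_normalClosure _ _ hπ, hS00]
    ext x
    obtain ⟨x, rfl⟩ := hπ x
    rw [hker]
    constructor
    · intro h
      obtain ⟨y, hy, hyx⟩ := Subgroup.mem_map.mp h
      have : y⁻¹ * x ∈ N := QuotientGroup.eq.mp hyx
      have h2 := R.mul_mem hy (hs.NR this)
      rwa [mul_inv_cancel_left] at h2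
    · intro h
      exact Subgroup.mem_map_of_mem _ h
  have hcF : Countable (FG r) := Function.Surjective.countable
    (f := fun L : List (Fin r × Bool) => (FreeGroup.mk L : FG r)) (fun x => by
      induction x using Quot.inductionOn with
      | h L => exact ⟨L, rfl⟩)
  have hcQ : Countable (FG r ⧸ N) := hπ.countable
  obtain ⟨S, g, w, hg, htor, h1, h2, h3, h4⟩ := WIN.exists_win p hp hB (π t) hfi' hρt
    (π '' (S00 : Set (FG r))) (S00.finite_toSet.image _) hn hWINA
  have hVR : ∀ a b : ℤ, ∀ x, x ∈ R → (π x ∈ WIN.V p (π t) S g a b ↔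
      ∃ hx : π x ∈ p.ker, ⟨π x, hx⟩ ∈ WIN.W p (π t) S a b) := by
    intro a b x hx
    constructor
    · intro h
      exact ⟨(hker x).mpr hx, h1 a b _ h _⟩
    · rintro ⟨hx', h⟩
      exact WIN.W_le_V p (π t) S g _ h
  refine ⟨{ U := (CommGroup.torsion (FG r ⧸ R)).comap ρ
            V := fun a b => (WIN.V p (π t) S g a b).comap π
            w := w
            R_le := ?_
            fin := ?_
            big := ?_
            N_le := ?_
            V_le := ?_
            mono := ?_
            shift := ?_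
            exh := ?_
            cover := ?_
            inter := ?_
            gen := ?_
            count := ?_ }⟩
  · intro x hx
    rw [Subgroup.mem_comap]
    have : ρ x = 1 := (QuotientGroup.eq_one_iff _).mpr hx
    rw [this]
    exact Subgroup.one_mem _
  · classical
    choose f hf using hπ
    refine ⟨htor.toFinset.image (fun q => f (g q)), fun x hx => ?_⟩
    refine ⟨f (g (ρ x)), Finset.mem_image.mpr ⟨ρ x, htor.mem_toFinset.mpr hx, rfl⟩, ?_⟩
    rw [← hker, map_mul, map_inv, hf, MonoidHom.mem_ker, map_mul, map_inv, hg, hpπ, mul_inv_cancel]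
  · intro F₀ hF hF'
    intro x hx
    by_contra hc
    apply hF'
    have h5 := WIN.big' (ρ t) hfi' (F₀.map ρ) (ρ x) (Subgroup.mem_map_of_mem _ hx) hc
    have h6 : F₀ = (F₀.map ρ).comap ρ := by
      rw [Subgroup.comap_map_eq, QuotientGroup.ker_mk', sup_eq_left.mpr hF]
    rw [h6]
    have h7 := h5.index_ne_zero
    rw [← Subgroup.index_comap_of_surjective _ hρ] at h7
    exact ⟨h7⟩
  · intro a b x hx
    rw [Subgroup.mem_comap]
    have : π x = 1 := (QuotientGroup.eq_one_iff _).mpr hx
    rw [this]
    exact Subgroup.one_mem _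
  · intro a b x hx
    exact WIN.V_le p (π t) S g hg a b hx
  · intro a b a' b' ha hb x hx
    exact WIN.V_mono p (π t) S g ha hb hx
  · intro a b x
    constructor
    · intro hx
      have := WIN.V_shift p (π t) S g 1 _ (Subgroup.mem_comap.mp hx)
      rw [zpow_one] at this
      rw [Subgroup.mem_comap, map_mul, map_mul, map_inv]
      exact this
    · intro hx
      have := WIN.V_shift p (π t) S g (-1) _ (Subgroup.mem_comap.mp hx)
      rw [Subgroup.mem_comap]
      have e : (π t) ^ (-1 : ℤ) * π (t * x * t⁻¹) * ((π t) ^ (-1 : ℤ))⁻¹ = π x := by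
        rw [map_mul, map_mul, map_inv]
        group
      rw [e, add_neg_cancel_right, add_neg_cancel_right] at this
      exact this
  · intro x hx
    exact h3 (π x) hx
  · intro a b hab x hx
    obtain ⟨y, hy⟩ := hπ ((π t) ^ a * g (ρ x) * ((π t) ^ a)⁻¹)
    refine ⟨y, ?_, ?_⟩
    · rw [Subgroup.mem_comap, hy]
      exact Subgroup.subset_closure (Or.inr ⟨a, le_refl a, hab, ρ x, hx, rfl⟩)
    · have h5 := WIN.p_h p (π t) g hg a (ρ x)
      unfold WIN.h at h5
      rw [← hker, map_mul, map_inv, hy, MonoidHom.mem_ker, map_mul, map_inv, h5, hpπ,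
        mul_inv_cancel]
  · intro a b hab x hx h5 h6
    obtain ⟨c, hc⟩ := h5
    obtain ⟨d, hd⟩ := h6
    rw [Subgroup.mem_comap, hVR _ _ x hx] at hc hd ⊢
    obtain ⟨hx', hc⟩ := hc
    obtain ⟨_, hd⟩ := hd
    exact ⟨hx', h4 a b hab _ ⟨c, hc⟩ ⟨d, hd⟩⟩
  · intro a b c hab hbc x hx
    obtain ⟨hx, hxR⟩ := Subgroup.mem_inf.mp hx
    rw [Subgroup.mem_comap, hVR _ _ x hxR] at hx
    obtain ⟨hx', hx⟩ := hx
    -- generators of `W a c` lie in `W a b` or `W b c`
    have key : ∀ y ∈ WIN.W p (π t) S a c, ∀ z, π z = (y : FG r ⧸ N) →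
        z ∈ ((WIN.V p (π t) S g a b).comap π ⊓ R) ⊔ ((WIN.V p (π t) S g b c).comap π ⊓ R) := by
      intro y hy
      unfold WIN.W at hy
      induction hy using Subgroup.closure_induction with
      | mem y hy =>
        intro z hz
        have hzR : z ∈ R := by
          rw [← hker, hz]
          exact y.2
        obtain ⟨i, hi, hi', s, hs, rfl⟩ := hy
        rcases lt_or_ge i b with h | h
        · apply Subgroup.mem_sup_left
          rw [Subgroup.mem_inf, Subgroup.mem_comap, hz]
          exact ⟨WIN.W_le_V p (π t) S g _ (Subgroup.subset_closure ⟨i, hi, h, s, hs, rfl⟩), hzR⟩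
        · apply Subgroup.mem_sup_right
          rw [Subgroup.mem_inf, Subgroup.mem_comap, hz]
          exact ⟨WIN.W_le_V p (π t) S g _ (Subgroup.subset_closure ⟨i, h, hi', s, hs, rfl⟩), hzR⟩
      | one =>
        intro z hz
        have hzN : z ∈ N := (QuotientGroup.eq_one_iff z).mp hz
        apply Subgroup.mem_sup_left
        rw [Subgroup.mem_inf, Subgroup.mem_comap, hz]
        exact ⟨Subgroup.one_mem _, hs.NR hzN⟩
      | mul y y' _ _ ih ih' =>
        intro z hz
        obtain ⟨u, hu⟩ := hπ (y : FG r ⧸ N)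
        have h5 := ih u hu
        have h6 := ih' (u⁻¹ * z) (by rw [map_mul, map_inv, hu, hz]; push_cast; group)
        have h7 := Subgroup.mul_mem _ h5 h6
        rwa [mul_inv_cancel_left] at h7
      | inv y _ ih =>
        intro z hz
        have h5 := ih z⁻¹ (by rw [map_inv, hz]; push_cast; group)
        have h6 := Subgroup.inv_mem _ h5
        rwa [inv_inv] at h6
    exact key _ hx x rfl
  · intro a b
    have hinj : Set.InjOn (fun K : Subgroup (FG r) => K.map π)
        {K | N ≤ K ∧ K ≤ (WIN.V p (π t) S g a b).comap π} := by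
      intro K hK K' hK' h
      have h5 : (K.map π).comap π = (K'.map π).comap π := by
        have h' : K.map π = K'.map π := h
        rw [h']
      rw [Subgroup.comap_map_eq, Subgroup.comap_map_eq, QuotientGroup.ker_mk',
        sup_eq_left.mpr hK.1, sup_eq_left.mpr hK'.1] at h5
      exact h5
    apply Set.countable_of_injective_of_countable_image hinj
    apply (h2 a b).mono
    rintro _ ⟨K, hK, rfl⟩
    exact Subgroup.map_le_iff_le_comap.mpr hK.2

end Pool.Agent.H21.PB
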