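import Pool.Agent.H10.PB.Targets

/-!
# Module WINA : windows in an abelian group with an automorphism
-/

set_option autoImplicit false

open LaurentPolynomial

namespace Pool.Agent.H21.PB.WINA

/-- Laurent polynomials with integer coefficients -/
abbrev L := LaurentPolynomial ℤ

instance : IsNoetherianRing L :=
  IsLocalization.isNoetherianRing (Submonoid.powers (Polynomial.X : Polynomial ℤ)) _ inferInstance

/-- Laurent polynomials supported in `I` -/
def Sup (I : Set ℤ) : AddSubgroup L where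
  carrier := {p | ∀ i, i ∉ I → p.coeff i = 0}
  zero_mem' := fun i _ => rfl
  add_mem' := by
    intro p q hp hq i hi
    rw [AddMonoidAlgebra.coeff_add, Finsupp.add_apply, hp i hi, hq i hi, add_zero]
  neg_mem' := by
    intro p hp i hi
    rw [AddMonoidAlgebra.coeff_neg, Finsupp.neg_apply, hp i hi, neg_zero]

theorem T_mem {I : Set ℤ} {i : ℤ} (hi : i ∈ I) : (T i : L) ∈ Sup I := by
  intro j hj
  have : j ≠ i := fun h => hj (h ▸ hi)
  rw [T, AddMonoidAlgebra.coeff_single, Finsupp.single_eq_of_ne this]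

theorem Sup_eq (I : Set ℤ) : Sup I = AddSubgroup.closure {p | ∃ i ∈ I, p = T i} := by
  apply le_antisymm
  · intro p hp
    rw [← AddMonoidAlgebra.sum_coeff_single p]
    unfold Finsupp.sum
    apply AddSubgroup.sum_mem
    intro i hi
    have hi' : i ∈ I := by
      by_contra h
      exact (Finsupp.mem_support_iff.mp hi) (hp i h)
    have : (AddMonoidAlgebra.single i (p.coeff i) : L) = (p.coeff i) • T i := by
      rw [single_eq_C_mul_T, smul_eq_C_mul]
    rw [this]
    apply AddSubgroup.zsmul_mem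
    exact AddSubgroup.subset_closure ⟨i, hi', rfl⟩
  · rw [AddSubgroup.closure_le]
    rintro _ ⟨i, hi, rfl⟩
    exact T_mem hi

theorem Sup_mono {I J : Set ℤ} (h : I ⊆ J) : Sup I ≤ Sup J := by
  intro p hp i hi
  exact hp i fun h' => hi (h h')

theorem Sup_inter {I J K : Set ℤ} (h : I ∩ J ⊆ K) {p : L} (hI : p ∈ Sup I) (hJ : p ∈ Sup J) :
    p ∈ Sup K := by
  intro i hi
  by_cases h1 : i ∈ I
  · by_cases h2 : i ∈ J
    · exact absurd (h ⟨h1, h2⟩) hi
    · exact hJ i h2
  · exact hI i h1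

theorem Sup_mul {I J K : Set ℤ} (h : ∀ i ∈ I, ∀ j ∈ J, i + j ∈ K) {p q : L} (hp : p ∈ Sup I)
    (hq : q ∈ Sup J) : p * q ∈ Sup K := by
  rw [Sup_eq] at hp hq
  induction hp using AddSubgroup.closure_induction with
  | mem p hp =>
    obtain ⟨i, hi, rfl⟩ := hp
    induction hq using AddSubgroup.closure_induction with
    | mem q hq =>
      obtain ⟨j, hj, rfl⟩ := hq
      rw [← T_add]
      exact T_mem (h i hi j hj)
    | zero => rw [mul_zero]; exact AddSubgroup.zero_mem _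
    | add q q' _ _ h1 h2 => rw [mul_add]; exact AddSubgroup.add_mem _ h1 h2
    | neg q _ h1 => rw [mul_neg]; exact AddSubgroup.neg_mem _ h1
  | zero => rw [zero_mul]; exact AddSubgroup.zero_mem _
  | add q q' _ _ h1 h2 => rw [add_mul]; exact AddSubgroup.add_mem _ h1 h2
  | neg q _ h1 => rw [neg_mul]; exact AddSubgroup.neg_mem _ h1

theorem split (k : ℤ) (p : L) : ∃ q r, q ∈ Sup {i | k ≤ i} ∧ r ∈ Sup {i | i < k} ∧ p = q + r := by
  have hp : p ∈ Sup Set.univ := fun i hi => absurd (Set.mem_univ i) hi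
  rw [Sup_eq] at hp
  induction hp using AddSubgroup.closure_induction with
  | mem p hp =>
    obtain ⟨i, _, rfl⟩ := hp
    rcases le_or_gt k i with h | h
    · exact ⟨T i, 0, T_mem h, AddSubgroup.zero_mem _, by rw [add_zero]⟩
    · exact ⟨0, T i, AddSubgroup.zero_mem _, T_mem h, by rw [zero_add]⟩
  | zero => exact ⟨0, 0, AddSubgroup.zero_mem _, AddSubgroup.zero_mem _, by rw [add_zero]⟩
  | add p p' _ _ h1 h2 =>
    obtain ⟨q, r, hq, hr, rfl⟩ := h1
    obtain ⟨q', r', hq', hr', rfl⟩ := h2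
    exact ⟨q + q', r + r', AddSubgroup.add_mem _ hq hq', AddSubgroup.add_mem _ hr hr', by abel⟩
  | neg p _ h1 =>
    obtain ⟨q, r, hq, hr, rfl⟩ := h1
    exact ⟨-q, -r, AddSubgroup.neg_mem _ hq, AddSubgroup.neg_mem _ hr, by abel⟩

theorem bdd (p : L) : ∃ n : ℕ, p ∈ Sup {i | -(n : ℤ) ≤ i ∧ i ≤ n} := by
  have hp : p ∈ Sup Set.univ := fun i hi => absurd (Set.mem_univ i) hi
  rw [Sup_eq] at hp
  have hm : ∀ n m : ℕ, n ≤ m → Sup {i | -(n : ℤ) ≤ i ∧ i ≤ n} ≤ Sup {i | -(m : ℤ) ≤ i ∧ i ≤ m} := by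
    intro n m h
    apply Sup_mono
    rintro i ⟨h1, h2⟩
    exact ⟨by omega, by omega⟩
  induction hp using AddSubgroup.closure_induction with
  | mem p hp =>
    obtain ⟨i, _, rfl⟩ := hp
    exact ⟨i.natAbs, T_mem ⟨by omega, by omega⟩⟩
  | zero => exact ⟨0, AddSubgroup.zero_mem _⟩
  | add p p' _ _ h1 h2 =>
    obtain ⟨n, hn⟩ := h1
    obtain ⟨m, hm'⟩ := h2
    exact ⟨max n m, AddSubgroup.add_mem _ (hm _ _ (le_max_left _ _) hn)
      (hm _ _ (le_max_right _ _) hm')⟩
  | neg p _ h1 =>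
    obtain ⟨n, hn⟩ := h1
    exact ⟨n, AddSubgroup.neg_mem _ hn⟩

section

variable {A : Type} [CommGroup A] (τ : MulAut A)

/-- the additive map with `T i ↦ τ^i s` -/
noncomputable def phi (s : A) : L →+ Additive A :=
  (Finsupp.liftAddHom (fun i : ℤ => zmultiplesHom (Additive A) (Additive.ofMul ((τ ^ i) s)))).comp
    (AddMonoidAlgebra.coeffAddEquiv : L ≃+ (ℤ →₀ ℤ)).toAddMonoidHom

theorem phi_T (s : A) (i : ℤ) : phi τ s (T i) = Additive.ofMul ((τ ^ i) s) := by
  unfold phi T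
  rw [AddMonoidHom.comp_apply]
  change Finsupp.liftAddHom _ ((AddMonoidAlgebra.single i (1 : ℤ) : L).coeff) = _
  rw [AddMonoidAlgebra.coeff_single, Finsupp.liftAddHom_apply_single, zmultiplesHom_apply, one_zsmul]

theorem phi_T_mul (s : A) (j : ℤ) (p : L) :
    phi τ s (T j * p) = Additive.ofMul ((τ ^ j) (phi τ s p).toMul) := by
  have hp : p ∈ Sup Set.univ := fun i hi => absurd (Set.mem_univ i) hi
  rw [Sup_eq] at hp
  induction hp using AddSubgroup.closure_induction with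
  | mem p hp =>
    obtain ⟨i, _, rfl⟩ := hp
    rw [← T_add, phi_T, phi_T, zpow_add]
    rfl
  | zero => rw [mul_zero, map_zero]; simp
  | add p p' _ _ h1 h2 => rw [mul_add, map_add, h1, h2, map_add]; simp
  | neg p _ h1 => rw [mul_neg, map_neg, h1, map_neg]; simp

/-- the set of generators -/
def Gen (S : Finset A) (I : Set ℤ) : Subgroup A :=
  Subgroup.closure {y | ∃ i ∈ I, ∃ s ∈ S, y = (τ ^ i) s}

variable (S : Finset A)

/-- the map on vectors -/
noncomputable def Phi : ((S → L)) →+ Additive A where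
  toFun u := ∑ s : S, phi τ s (u s)
  map_zero' := by simp
  map_add' u v := by
    simp only [Pi.add_apply, map_add]
    exact Finset.sum_add_distrib

theorem Phi_apply (u : S → L) : Phi τ S u = ∑ s : S, phi τ s (u s) := rfl

theorem Phi_smul (i : ℤ) (u : S → L) (hu : Phi τ S u = 0) : Phi τ S ((T i : L) • u) = 0 := by
  rw [Phi_apply]
  have : ∀ s : S, phi τ s (((T i : L) • u) s) =
      (MulEquiv.toAdditive (τ ^ i)) (phi τ s (u s)) := by
    intro s
    rw [Pi.smul_apply, smul_eq_mul, phi_T_mul]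
    rfl
  rw [Finset.sum_congr rfl fun s _ => this s, ← map_sum, ← Phi_apply, hu, map_zero]

theorem phi_mem (s : A) (hs : s ∈ S) (I : Set ℤ) (p : L) (hp : p ∈ Sup I) :
    (phi τ s p).toMul ∈ Gen τ S I := by
  rw [Sup_eq] at hp
  induction hp using AddSubgroup.closure_induction with
  | mem p hp =>
    obtain ⟨i, hi, rfl⟩ := hp
    rw [phi_T]
    exact Subgroup.subset_closure ⟨i, hi, s, hs, rfl⟩
  | zero => rw [map_zero]; exact Subgroup.one_mem _
  | add p p' _ _ h1 h2 => rw [map_add]; exact Subgroup.mul_mem _ h1 h2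
  | neg p _ h1 => rw [map_neg]; exact Subgroup.inv_mem _ h1

theorem Phi_mem (I : Set ℤ) (u : S → L) (hu : ∀ s, u s ∈ Sup I) :
    (Phi τ S u).toMul ∈ Gen τ S I := by
  change (∑ s : S, phi τ s (u s)).toMul ∈ Gen τ S I
  rw [toMul_sum]
  apply Subgroup.prod_mem
  intro s _
  exact phi_mem τ S s s.2 I _ (hu s)

theorem Phi_surj (I : Set ℤ) (x : A) (hx : x ∈ Gen τ S I) :
    ∃ u : S → L, (∀ s, u s ∈ Sup I) ∧ Phi τ S u = Additive.ofMul x := by
  classical
  unfold Gen at hx
  induction hx using Subgroup.closure_induction with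
  | mem x hx =>
    obtain ⟨i, hi, s, hs, rfl⟩ := hx
    refine ⟨Pi.single ⟨s, hs⟩ (T i), ?_, ?_⟩
    · intro s'
      by_cases h : s' = ⟨s, hs⟩
      · subst h
        rw [Pi.single_eq_same]
        exact T_mem hi
      · rw [Pi.single_eq_of_ne h]
        exact AddSubgroup.zero_mem _
    · change ∑ s' : S, phi τ s' ((Pi.single ⟨s, hs⟩ (T i) : S → L) s') = _
      rw [Finset.sum_eq_single ⟨s, hs⟩]
      · rw [Pi.single_eq_same, phi_T]
      · intro b _ hb
        rw [Pi.single_eq_of_ne hb, map_zero]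
      · intro h
        exact absurd (Finset.mem_univ _) h
  | one => exact ⟨0, fun s => AddSubgroup.zero_mem _, by rw [map_zero]; rfl⟩
  | mul x y _ _ hx hy =>
    obtain ⟨u, hu, h⟩ := hx
    obtain ⟨v, hv, h'⟩ := hy
    exact ⟨u + v, fun s => AddSubgroup.add_mem _ (hu s) (hv s), by rw [map_add, h, h']; rfl⟩
  | inv x _ hx =>
    obtain ⟨u, hu, h⟩ := hx
    exact ⟨-u, fun s => AddSubgroup.neg_mem _ (hu s), by rw [map_neg, h]; rfl⟩

/-- the kernel -/
noncomputable def Ker : Submodule L (S → L) where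
  carrier := {u | Phi τ S u = 0}
  zero_mem' := map_zero _
  add_mem' := by
    intro u v hu hv
    change Phi τ S (u + v) = 0
    rw [map_add, hu, hv, add_zero]
  smul_mem' := by
    intro p u hu
    change Phi τ S (p • u) = 0
    change Phi τ S u = 0 at hu
    have hp : p ∈ Sup Set.univ := fun i hi => absurd (Set.mem_univ i) hi
    rw [Sup_eq] at hp
    induction hp using AddSubgroup.closure_induction with
    | mem p hp =>
      obtain ⟨i, _, rfl⟩ := hp
      exact Phi_smul τ S i u hu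
    | zero => rw [zero_smul, map_zero]
    | add p p' _ _ h1 h2 => rw [add_smul, map_add, h1, h2, add_zero]
    | neg p _ h1 => rw [neg_smul, map_neg, h1, neg_zero]

end

theorem main {A : Type} [CommGroup A] (τ : MulAut A) (S : Finset A) :
    ∃ w : ℕ, ∀ a b : ℤ, a + w ≤ b → ∀ x : A,
    (∃ c : ℤ, x ∈ Gen τ S {i | c ≤ i ∧ i < b}) → (∃ c : ℤ, x ∈ Gen τ S {i | a ≤ i ∧ i < c}) →
      x ∈ Gen τ S {i | a ≤ i ∧ i < b} := by
  obtain ⟨k, g, hg⟩ := Submodule.fg_iff_exists_fin_generating_family.mp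
    (IsNoetherian.noetherian (Ker τ S))
  have hb : ∃ n : ℕ, ∀ j : Fin k, ∀ s : S, g j s ∈ Sup {i | -(n : ℤ) ≤ i ∧ i ≤ n} := by
    choose n hn using fun (q : Fin k × S) => bdd (g q.1 q.2)
    refine ⟨Finset.univ.sup n, fun j s => ?_⟩
    have h1 : n (j, s) ≤ Finset.univ.sup n := Finset.le_sup (Finset.mem_univ _)
    refine Sup_mono ?_ (hn (j, s))
    rintro i ⟨h2, h3⟩
    exact ⟨by omega, by omega⟩
  obtain ⟨n, hn⟩ := hb
  refine ⟨2 * n, fun a b hab x ⟨c, hc⟩ ⟨c', hc'⟩ => ?_⟩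
  obtain ⟨u, hu, hux⟩ := Phi_surj τ S _ x hc
  obtain ⟨v, hv, hvx⟩ := Phi_surj τ S _ x hc'
  have huv : u - v ∈ Ker τ S := by
    change Phi τ S (u - v) = 0
    rw [map_sub, hux, hvx, sub_self]
  rw [← hg, Submodule.mem_span_range_iff_exists_fun] at huv
  obtain ⟨p, hp⟩ := huv
  choose q r hq hr hqr using fun j => split (a + n) (p j)
  have hg' : ∀ j, g j ∈ Ker τ S := fun j => by
    rw [← hg]; exact Submodule.subset_span ⟨j, rfl⟩
  have h1 : Phi τ S (∑ j, q j • g j) = 0 := by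
    have : ∑ j, q j • g j ∈ Ker τ S := Submodule.sum_mem _ fun j _ =>
      Submodule.smul_mem _ _ (hg' j)
    exact this
  have h2 : u - v = ∑ j, q j • g j + ∑ j, r j • g j := by
    rw [← hp, ← Finset.sum_add_distrib]
    apply Finset.sum_congr rfl
    intro j _
    rw [hqr j, add_smul]
  have hy : v + ∑ j, q j • g j = u - ∑ j, r j • g j := by
    rw [eq_sub_iff_add_eq, add_assoc, ← h2]
    abel
  have hA : ∀ s, (v + ∑ j, q j • g j) s ∈ Sup {i | a ≤ i} := by
    intro s
    rw [Pi.add_apply, Finset.sum_apply]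
    apply AddSubgroup.add_mem
    · exact Sup_mono (fun i hi => hi.1) (hv s)
    · apply AddSubgroup.sum_mem
      intro j _
      exact Sup_mul (fun i hi l hl => by
        simp only [Set.mem_ofPred_eq] at *
        omega) (hq j) (hn j s)
  have hB : ∀ s, (u - ∑ j, r j • g j) s ∈ Sup {i | i < b} := by
    intro s
    rw [Pi.sub_apply, Finset.sum_apply]
    apply AddSubgroup.sub_mem
    · exact Sup_mono (fun i hi => hi.2) (hu s)
    · apply AddSubgroup.sum_mem
      intro j _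
      exact Sup_mul (fun i hi l hl => by
        simp only [Set.mem_ofPred_eq] at *
        push_cast at hab
        omega) (hr j) (hn j s)
  have hf := Phi_mem τ S {i | a ≤ i ∧ i < b} (v + ∑ j, q j • g j) (fun s =>
    Sup_inter (fun i hi => hi) (hA s) (by rw [hy]; exact hB s))
  rw [map_add, h1, add_zero, hvx] at hf
  exact hf

end Pool.Agent.H21.PB.WINA

namespace Pool.Agent.H21.PB

open Pool.Agent.H10.PB

theorem t_WINA : T_WINA := by
  intro A _ τ S
  obtain ⟨w, hw⟩ := WINA.main τ S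
  have e : ∀ a b : ℤ, {y | ∃ i : ℤ, a ≤ i ∧ i < b ∧ ∃ s ∈ S, y = (τ ^ i) s} =
      {y | ∃ i ∈ {i : ℤ | a ≤ i ∧ i < b}, ∃ s ∈ S, y = (τ ^ i) s} := by
    intro a b
    ext y
    simp only [Set.mem_ofPred_eq, and_assoc]
  refine ⟨w, fun a b hab x h1 h2 => ?_⟩
  rw [e]
  refine hw a b hab x ?_ ?_
  · obtain ⟨c, hc⟩ := h1
    rw [e] at hc
    exact ⟨c, hc⟩
  · obtain ⟨c, hc⟩ := h2
    rw [e] at hc
    exact ⟨c, hc⟩

end Pool.Agent.H21.PB
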