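import Pool.Agent.H10.PB.Targets

/-!
# Module WIN : windows, the structure inside an abelian-by-abelian group
-/

set_option autoImplicit false

namespace Pool.Agent.H21.PB.WIN

section

variable {Q E : Type} [Group Q] [CommGroup E] (p : Q →* E)
  (hB : ∀ x ∈ p.ker, ∀ y ∈ p.ker, x * y = y * x)

/-- conjugation action on the kernel -/
def cj : Q →* MulAut p.ker := MulAut.conjNormal

theorem cj_apply (x : Q) (b : p.ker) : ((cj p x b : p.ker) : Q) = x * b * x⁻¹ :=
  MulAut.conjNormal_apply x b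

include hB in
theorem cj_eq {x y : Q} (h : p x = p y) : cj p x = cj p y := by
  ext b
  rw [cj_apply, cj_apply]
  have h1 : y⁻¹ * x ∈ p.ker := by
    rw [MonoidHom.mem_ker, map_mul, map_inv, h, inv_mul_cancel]
  have h2 := hB _ h1 _ b.2
  have h3 : x * b * x⁻¹ = y * ((y⁻¹ * x) * b * (y⁻¹ * x)⁻¹) * y⁻¹ := by group
  rw [h3, h2]
  group

include hB in
theorem cj_comm (x y : Q) : cj p x * cj p y = cj p y * cj p x := by
  rw [← map_mul, ← map_mul]
  apply cj_eq p hB
  rw [map_mul, map_mul, mul_comm]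

variable (t : Q) (S : Set p.ker) (g : E → Q)

/-- the part of a window in the kernel -/
def W (a b : ℤ) : Subgroup p.ker :=
  Subgroup.closure {y | ∃ i : ℤ, a ≤ i ∧ i < b ∧ ∃ s ∈ S, y = ((cj p t) ^ i) s}

/-- the windows -/
def V (a b : ℤ) : Subgroup Q :=
  Subgroup.closure ({x | ∃ y ∈ W p t S a b, x = y} ∪
    {x | ∃ i : ℤ, a ≤ i ∧ i < b ∧ ∃ q ∈ CommGroup.torsion E, x = t ^ i * g q * (t ^ i)⁻¹})

theorem W_mono {a b a' b' : ℤ} (h1 : a' ≤ a) (h2 : b ≤ b') : W p t S a b ≤ W p t S a' b' := by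
  apply Subgroup.closure_mono
  rintro y ⟨i, hi, hi', s, hs, rfl⟩
  exact ⟨i, by omega, by omega, s, hs, rfl⟩

theorem V_mono {a b a' b' : ℤ} (h1 : a' ≤ a) (h2 : b ≤ b') :
    V p t S g a b ≤ V p t S g a' b' := by
  apply Subgroup.closure_mono
  rintro x (⟨y, hy, rfl⟩ | ⟨i, hi, hi', q, hq, rfl⟩)
  · exact Or.inl ⟨y, W_mono p t S h1 h2 hy, rfl⟩
  · exact Or.inr ⟨i, by omega, by omega, q, hq, rfl⟩

theorem W_le_V {a b : ℤ} (y : p.ker) (hy : y ∈ W p t S a b) : (y : Q) ∈ V p t S g a b :=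
  Subgroup.subset_closure (Or.inl ⟨y, hy, rfl⟩)

theorem W_shift {a b : ℤ} (j : ℤ) (y : p.ker) (hy : y ∈ W p t S a b) :
    ((cj p t) ^ j) y ∈ W p t S (a + j) (b + j) := by
  unfold W at hy
  induction hy using Subgroup.closure_induction with
  | mem y hy =>
    obtain ⟨i, hi, hi', s, hs, rfl⟩ := hy
    apply Subgroup.subset_closure
    refine ⟨i + j, by omega, by omega, s, hs, ?_⟩
    rw [add_comm, zpow_add]
    rfl
  | one => rw [map_one]; exact Subgroup.one_mem _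
  | mul x y _ _ hx hy => rw [map_mul]; exact Subgroup.mul_mem _ hx hy
  | inv x _ hx => rw [map_inv]; exact Subgroup.inv_mem _ hx

theorem cj_zpow (j : ℤ) (y : p.ker) : ((((cj p t) ^ j) y : p.ker) : Q) = t ^ j * y * (t ^ j)⁻¹ := by
  rw [← map_zpow, cj_apply]

theorem V_shift {a b : ℤ} (j : ℤ) (x : Q) (hx : x ∈ V p t S g a b) :
    t ^ j * x * (t ^ j)⁻¹ ∈ V p t S g (a + j) (b + j) := by
  unfold V at hx
  induction hx using Subgroup.closure_induction with
  | mem x hx =>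
    rcases hx with ⟨y, hy, rfl⟩ | ⟨i, hi, hi', q, hq, rfl⟩
    · rw [← cj_zpow]
      exact W_le_V p t S g _ (W_shift p t S j y hy)
    · apply Subgroup.subset_closure
      right
      refine ⟨i + j, by omega, by omega, q, hq, ?_⟩
      rw [add_comm, zpow_add]
      group
  | one => rw [mul_one, mul_inv_cancel]; exact Subgroup.one_mem _
  | mul x y _ _ hx hy =>
    have : t ^ j * (x * y) * (t ^ j)⁻¹ = t ^ j * x * (t ^ j)⁻¹ * (t ^ j * y * (t ^ j)⁻¹) := by group
    rw [this]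
    exact Subgroup.mul_mem _ hx hy
  | inv x _ hx =>
    have : t ^ j * x⁻¹ * (t ^ j)⁻¹ = (t ^ j * x * (t ^ j)⁻¹)⁻¹ := by group
    rw [this]
    exact Subgroup.inv_mem _ hx

variable (hg : ∀ e, p (g e) = e)
  (hS4 : ∀ q ∈ CommGroup.torsion E, ∀ s ∈ S, cj p (g q) s ∈ S)
  (hS2 : ∀ q ∈ CommGroup.torsion E, ∀ q' ∈ CommGroup.torsion E,
    ∃ s ∈ S, ((s : p.ker) : Q) = g q * g q' * (g (q * q'))⁻¹)
  (hS3 : ∀ q ∈ CommGroup.torsion E, ∃ s ∈ S, ((s : p.ker) : Q) = t * g q * t⁻¹ * (g q)⁻¹)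
  (hg1 : g 1 = 1)

include hB hS4 in
theorem W_stab {a b : ℤ} (q : E) (hq : q ∈ CommGroup.torsion E) (y : p.ker)
    (hy : y ∈ W p t S a b) : cj p (g q) y ∈ W p t S a b := by
  unfold W at hy
  induction hy using Subgroup.closure_induction with
  | mem y hy =>
    obtain ⟨i, hi, hi', s, hs, rfl⟩ := hy
    apply Subgroup.subset_closure
    refine ⟨i, hi, hi', cj p (g q) s, hS4 q hq s hs, ?_⟩
    have h := cj_comm p hB (g q) (t ^ i)
    rw [map_zpow] at h
    have h2 := DFunLike.congr_fun h s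
    exact h2
  | one => rw [map_one]; exact Subgroup.one_mem _
  | mul x y _ _ hx hy => rw [map_mul]; exact Subgroup.mul_mem _ hx hy
  | inv x _ hx => rw [map_inv]; exact Subgroup.inv_mem _ hx

/-- translates of the lifts -/
def h (a : ℤ) (q : E) : Q := t ^ a * g q * (t ^ a)⁻¹

include hg in
theorem p_h (a : ℤ) (q : E) : p (h t g a q) = q := by
  unfold h
  rw [map_mul, map_mul, map_inv, hg, mul_comm, ← mul_assoc, inv_mul_cancel, one_mul]

include hB hg hS4 in
theorem h_mul (a b : ℤ) (q : E) (hq : q ∈ CommGroup.torsion E) (y : p.ker)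
    (hy : y ∈ W p t S a b) : ∃ z ∈ W p t S a b, h t g a q * y = z * h t g a q := by
  refine ⟨cj p (h t g a q) y, ?_, ?_⟩
  · rw [cj_eq p hB (x := h t g a q) (y := g q) (by rw [p_h p t g hg, hg])]
    exact W_stab p hB t S g hS4 q hq y hy
  · rw [cj_apply]
    group

include hS2 in
theorem h_h (a b : ℤ) (hab : a < b) (q q' : E) (hq : q ∈ CommGroup.torsion E)
    (hq' : q' ∈ CommGroup.torsion E) :
    ∃ z ∈ W p t S a b, h t g a q * h t g a q' = z * h t g a (q * q') := by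
  obtain ⟨s, hs, hs'⟩ := hS2 q hq q' hq'
  refine ⟨((cj p t) ^ a) s, Subgroup.subset_closure ⟨a, le_refl a, hab, s, hs, rfl⟩, ?_⟩
  rw [cj_zpow, hs']
  unfold h
  group

include hB hg hS4 hS2 hg1 in
/-- the explicit description of the windows -/
theorem P_sub (a b : ℤ) (hab : a < b) : ∃ P : Subgroup Q, ∀ x, x ∈ P ↔
    ∃ y ∈ W p t S a b, ∃ q ∈ CommGroup.torsion E, x = y * h t g a q := by
  refine ⟨{ carrier := {x | ∃ y ∈ W p t S a b, ∃ q ∈ CommGroup.torsion E, x = y * h t g a q}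
            one_mem' := ⟨1, Subgroup.one_mem _, 1, Subgroup.one_mem _, by simp [h, hg1]⟩
            mul_mem' := ?_
            inv_mem' := ?_ }, fun x => Iff.rfl⟩
  · rintro _ _ ⟨y, hy, q, hq, rfl⟩ ⟨y', hy', q', hq', rfl⟩
    obtain ⟨z, hz, e1⟩ := h_mul p hB t S g hg hS4 a b q hq y' hy'
    obtain ⟨z', hz', e2⟩ := h_h p t S g hS2 a b hab q q' hq hq'
    refine ⟨y * z * z', Subgroup.mul_mem _ (Subgroup.mul_mem _ hy hz) hz', q * q',
      Subgroup.mul_mem _ hq hq', ?_⟩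
    have : (y : Q) * h t g a q * (y' * h t g a q') = y * (h t g a q * y') * h t g a q' := by group
    rw [this, e1]
    have : (y : Q) * (z * h t g a q) * h t g a q' = y * z * (h t g a q * h t g a q') := by group
    rw [this, e2]
    push_cast
    group
  · rintro _ ⟨y, hy, q, hq, rfl⟩
    obtain ⟨z, hz, e1⟩ := h_mul p hB t S g hg hS4 a b q⁻¹ (Subgroup.inv_mem _ hq) y⁻¹
      (Subgroup.inv_mem _ hy)
    obtain ⟨z', hz', e2⟩ := h_h p t S g hS2 a b hab q⁻¹ q (Subgroup.inv_mem _ hq) hq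
    have e3 : h t g a (q⁻¹ * q) = 1 := by
      rw [inv_mul_cancel]
      simp [h, hg1]
    rw [e3, mul_one] at e2
    refine ⟨z'⁻¹ * z, Subgroup.mul_mem _ (Subgroup.inv_mem _ hz') hz, q⁻¹,
      Subgroup.inv_mem _ hq, ?_⟩
    have e4 : (h t g a q)⁻¹ = (z' : Q)⁻¹ * h t g a q⁻¹ := by
      rw [← e2]
      group
    rw [mul_inv_rev, e4, mul_assoc]
    have e5 : h t g a q⁻¹ * (y : Q)⁻¹ = z * h t g a q⁻¹ := by
      rw [← e1]
      push_cast
      rfl
    rw [e5]
    push_cast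
    group

include hS3 in
theorem h_mem_P (a b : ℤ) (P : Subgroup Q) (hP : ∀ x, x ∈ P ↔
    ∃ y ∈ W p t S a b, ∃ q ∈ CommGroup.torsion E, x = y * h t g a q)
    (q : E) (hq : q ∈ CommGroup.torsion E) (n : ℕ) (hn : a + n < b) : h t g (a + n) q ∈ P := by
  induction n with
  | zero =>
    rw [Nat.cast_zero, add_zero, hP]
    exact ⟨1, Subgroup.one_mem _, q, hq, by simp⟩
  | succ n ih =>
    have ih := ih (by push_cast at hn; omega)
    obtain ⟨s, hs, hs'⟩ := hS3 q hq
    have e : h t g (a + (n + 1 : ℕ)) q = ((((cj p t) ^ (a + n)) s : p.ker) : Q) *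
        h t g (a + n) q := by
      rw [cj_zpow, hs']
      unfold h
      have : a + ((n + 1 : ℕ) : ℤ) = (a + n) + 1 := by push_cast; ring
      rw [this, zpow_add_one]
      group
    rw [e, hP]
    obtain ⟨y, hy, q', hq', e'⟩ := (hP _).mp ih
    refine ⟨((cj p t) ^ (a + n)) s * y, Subgroup.mul_mem _ (Subgroup.subset_closure
      ⟨a + n, by omega, by push_cast at hn; omega, s, hs, rfl⟩) hy, q', hq', ?_⟩
    rw [e']
    push_cast
    group

include hB hg hS4 hS2 hS3 hg1 in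
theorem V_iff (a b : ℤ) (hab : a < b) (x : Q) : x ∈ V p t S g a b ↔
    ∃ y ∈ W p t S a b, ∃ q ∈ CommGroup.torsion E, x = y * h t g a q := by
  obtain ⟨P, hP⟩ := P_sub p hB t S g hg hS4 hS2 hg1 a b hab
  constructor
  · intro hx
    rw [← hP]
    have : V p t S g a b ≤ P := by
      unfold V
      rw [Subgroup.closure_le]
      rintro x (⟨y, hy, rfl⟩ | ⟨i, hi, hi', q, hq, rfl⟩)
      · rw [SetLike.mem_coe, hP]
        exact ⟨y, hy, 1, Subgroup.one_mem _, by simp [h, hg1]⟩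
      · obtain ⟨n, rfl⟩ : ∃ n : ℕ, i = a + n := ⟨(i - a).toNat, by omega⟩
        exact h_mem_P p t S g hS3 a b P hP q hq n hi'
    exact this hx
  · rintro ⟨y, hy, q, hq, rfl⟩
    apply Subgroup.mul_mem _ (W_le_V p t S g y hy)
    exact Subgroup.subset_closure (Or.inr ⟨a, le_refl a, hab, q, hq, rfl⟩)

include hB hg hS4 hS2 hS3 hg1 in
theorem V_ker (a b : ℤ) (x : Q) (hx : x ∈ V p t S g a b) (hx' : x ∈ p.ker) :
    ⟨x, hx'⟩ ∈ W p t S a b := by
  rcases lt_or_ge a b with hab | hab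
  · rw [V_iff p hB t S g hg hS4 hS2 hS3 hg1 a b hab] at hx
    obtain ⟨y, hy, q, hq, rfl⟩ := hx
    have : q = 1 := by
      have h1 := MonoidHom.mem_ker.mp hx'
      rw [map_mul, p_h p t g hg, MonoidHom.mem_ker.mp y.2, one_mul] at h1
      exact h1
    subst this
    have : (⟨(y : Q) * h t g a 1, hx'⟩ : p.ker) = y := by
      apply Subtype.ext
      simp [h, hg1]
    rw [this]
    exact hy
  · have : V p t S g a b = ⊥ := by
      unfold V
      rw [Subgroup.closure_eq_bot_iff]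
      rintro x (⟨y, hy, rfl⟩ | ⟨i, hi, hi', q, hq, rfl⟩)
      · have : W p t S a b = ⊥ := by
          unfold W
          rw [Subgroup.closure_eq_bot_iff]
          rintro y ⟨i, hi, hi', _⟩
          omega
        rw [this, Subgroup.mem_bot] at hy
        rw [hy]
        rfl
      · omega
    rw [this, Subgroup.mem_bot] at hx
    subst hx
    exact Subgroup.one_mem _

end

end Pool.Agent.H21.PB.WIN
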