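import Pool.Agent.H21.PB.WIN1

/-!
# Module WIN : existence of windows inside an abelian-by-abelian group
-/

set_option autoImplicit false

open Pool.Agent.H10.PB

namespace Pool.Agent.H21.PB.WIN

section abelian

variable {E : Type} [CommGroup E]

/-- torsion elements are finitely many -/
theorem tor_fin (u : E) (hu : (Subgroup.zpowers u).FiniteIndex) (hu' : ∀ k : ℤ, u ^ k = 1 → k = 0) :
    (CommGroup.torsion E : Set E).Finite := by
  have : Finite (E ⧸ Subgroup.zpowers u) := Subgroup.finite_quotient_of_finiteIndex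
  have hinj : Function.Injective (fun q : CommGroup.torsion E => ((q : E) : E ⧸ Subgroup.zpowers u)) := by
    intro q q' h
    have h1 := QuotientGroup.eq.mp h
    obtain ⟨k, hk⟩ := Subgroup.mem_zpowers_iff.mp h1
    have h2 : IsOfFinOrder ((q : E)⁻¹ * q') :=
      (CommGroup.torsion E).mul_mem ((CommGroup.torsion E).inv_mem q.2) q'.2
    rw [← hk, isOfFinOrder_iff_pow_eq_one] at h2
    obtain ⟨n, hn, hn'⟩ := h2
    rw [← zpow_natCast, ← zpow_mul] at hn'
    have h3 := hu' _ hn'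
    have h4 : k = 0 := by
      rcases mul_eq_zero.mp h3 with h | h
      · exact h
      · omega
    subst h4
    rw [zpow_zero] at hk
    apply Subtype.ext
    exact inv_mul_eq_one.mp hk.symm
  have : Finite (CommGroup.torsion E) := Finite.of_injective _ hinj
  exact Set.toFinite _

/-- a subgroup with an element of infinite order has finite index -/
theorem big' (u : E) (hu : (Subgroup.zpowers u).FiniteIndex) [Group.FG E] (F : Subgroup E) (x : E)
    (hx : x ∈ F) (hx' : ¬ IsOfFinOrder x) : F.FiniteIndex := by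
  have hidx := hu.index_ne_zero
  obtain ⟨m, hm, _, hm'⟩ := Subgroup.exists_pow_mem_of_index_ne_zero hidx x
  obtain ⟨j, hj⟩ := Subgroup.mem_zpowers_iff.mp hm'
  have hj0 : j ≠ 0 := by
    rintro rfl
    apply hx'
    rw [isOfFinOrder_iff_pow_eq_one]
    exact ⟨m, hm, by rw [← hj, zpow_zero]⟩
  have htor : IsMulTorsion (E ⧸ F) := by
    intro y
    induction y using QuotientGroup.induction_on with
    | H y =>
      obtain ⟨n, hn, _, hn'⟩ := Subgroup.exists_pow_mem_of_index_ne_zero hidx y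
      obtain ⟨l, hl⟩ := Subgroup.mem_zpowers_iff.mp hn'
      rw [isOfFinOrder_iff_zpow_eq_one]
      refine ⟨n * j, mul_ne_zero (by omega) hj0, ?_⟩
      rw [← QuotientGroup.mk_zpow, QuotientGroup.eq_one_iff, zpow_mul, zpow_natCast, ← hl,
        ← zpow_mul, mul_comm, zpow_mul, hj]
      exact F.zpow_mem (F.pow_mem hx m) l
  have : Finite (E ⧸ F) := CommGroup.finite_of_fg_isMulTorsion _ htor
  exact Subgroup.finiteIndex_of_finite_quotient

/-- subgroups of finitely generated abelian groups are finitely generated -/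
theorem fg_sub (S : Set E) (hS : S.Finite) (K : Subgroup E) (hK : K ≤ Subgroup.closure S) :
    ∃ T : Finset E, Subgroup.closure (T : Set E) = K := by
  have h1 : IsNoetherian ℤ (Submodule.span ℤ (Additive.toMul ⁻¹' S)) :=
    isNoetherian_span_of_finite ℤ hS
  rw [isNoetherian_submodule] at h1
  have key : ∀ y ∈ Subgroup.closure S,
      Additive.ofMul y ∈ Submodule.span ℤ (Additive.toMul ⁻¹' S) := by
    intro y hy
    induction hy using Subgroup.closure_induction with
    | mem y hy => exact Submodule.subset_span hy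
    | one => exact Submodule.zero_mem _
    | mul x y _ _ hx hy => exact Submodule.add_mem _ hx hy
    | inv x _ hx => exact Submodule.neg_mem _ hx
  have h2 := h1 (AddSubgroup.toIntSubmodule (Subgroup.toAddSubgroup K)) (fun x hx =>
    key x.toMul (hK hx))
  rw [Submodule.fg_iff_addSubgroup_fg] at h2
  have h3 : K.FG := by
    rw [Subgroup.fg_iff_add_fg]
    exact h2
  obtain ⟨T, hT⟩ := h3
  exact ⟨T, hT⟩

end abelian

section

variable {Q E : Type} [Group Q] [CommGroup E] (p : Q →* E)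
  (hB : ∀ x ∈ p.ker, ∀ y ∈ p.ker, x * y = y * x)
  (t : Q) (S : Set p.ker) (g : E → Q)
  (hg : ∀ e, p (g e) = e)
  (hS4 : ∀ q ∈ CommGroup.torsion E, ∀ s ∈ S, cj p (g q) s ∈ S)
  (hS2 : ∀ q ∈ CommGroup.torsion E, ∀ q' ∈ CommGroup.torsion E,
    ∃ s ∈ S, ((s : p.ker) : Q) = g q * g q' * (g (q * q'))⁻¹)
  (hS3 : ∀ q ∈ CommGroup.torsion E, ∃ s ∈ S, ((s : p.ker) : Q) = t * g q * t⁻¹ * (g q)⁻¹)
  (hg1 : g 1 = 1)

include hg in
theorem V_le (a b : ℤ) : V p t S g a b ≤ (CommGroup.torsion E).comap p := by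
  unfold V
  rw [Subgroup.closure_le]
  rintro x (⟨y, hy, rfl⟩ | ⟨i, hi, hi', q, hq, rfl⟩)
  · rw [SetLike.mem_coe, Subgroup.mem_comap, MonoidHom.mem_ker.mp y.2]
    exact Subgroup.one_mem _
  · rw [SetLike.mem_coe, Subgroup.mem_comap]
    have := p_h p t g hg i q
    unfold h at this
    rw [this]
    exact hq

/-- the kernel as a commutative group -/
@[reducible] def cg (hB : ∀ x ∈ p.ker, ∀ y ∈ p.ker, x * y = y * x) : CommGroup p.ker :=
  { (inferInstance : Group p.ker) with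
    mul_comm := fun x y => Subtype.ext (hB x x.2 y y.2) }

include hB hg hS4 hS2 hS3 hg1 in
/-- countably many subgroups -/
theorem count (hS : S.Finite) (htor : (CommGroup.torsion E : Set E).Finite) [Countable Q]
    (a b : ℤ) : {K : Subgroup Q | K ≤ V p t S g a b}.Countable := by
  classical
  apply Set.Countable.mono (s₂ := Set.range fun T : Finset Q => Subgroup.closure (T : Set Q))
  swap
  · exact Set.countable_range _
  intro K hK
  let _ := cg p hB
  have hWf : {y | ∃ i : ℤ, a ≤ i ∧ i < b ∧ ∃ s ∈ S, y = ((cj p t) ^ i) s}.Finite := by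
    have : {y | ∃ i : ℤ, a ≤ i ∧ i < b ∧ ∃ s ∈ S, y = ((cj p t) ^ i) s} =
        Set.image2 (fun (i : ℤ) s => ((cj p t) ^ i) s) (Set.Ico a b) S := by
      ext y
      constructor
      · rintro ⟨i, hi, hi', s, hs, rfl⟩
        exact ⟨i, ⟨hi, hi'⟩, s, hs, rfl⟩
      · rintro ⟨i, ⟨hi, hi'⟩, s, hs, rfl⟩
        exact ⟨i, hi, hi', s, hs, rfl⟩
    rw [this]
    exact Set.Finite.image2 _ (Set.finite_Ico a b) hS
  obtain ⟨T, hT⟩ := fg_sub _ hWf (K.subgroupOf p.ker) (by
    intro x hx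
    have hx' : (x : Q) ∈ K := hx
    have := V_ker p hB t S g hg hS4 hS2 hS3 hg1 a b x (hK hx') x.2
    exact this)
  have hch : ∀ q : E, ∃ x : Q, x ∈ K ∧ ((∃ y ∈ K, p y = q) → p x = q) := by
    intro q
    by_cases h : ∃ y ∈ K, p y = q
    · obtain ⟨y, hy, hy'⟩ := h
      exact ⟨y, hy, fun _ => hy'⟩
    · exact ⟨1, K.one_mem, fun h' => absurd h' h⟩
  choose f hf hf' using hch
  refine ⟨T.image (fun x : p.ker => (x : Q)) ∪ htor.toFinset.image f, ?_⟩
  apply le_antisymm
  · rw [Subgroup.closure_le]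
    intro x hx
    rw [Finset.mem_coe, Finset.mem_union, Finset.mem_image, Finset.mem_image] at hx
    rcases hx with ⟨y, hy, rfl⟩ | ⟨q, hq, rfl⟩
    · have : y ∈ K.subgroupOf p.ker := by
        rw [← hT]
        exact Subgroup.subset_closure hy
      exact this
    · exact hf q
  · intro x hx
    have hxt : p x ∈ CommGroup.torsion E := V_le p t S g hg a b (hK hx)
    have h1 : p (f (p x)) = p x := hf' (p x) ⟨x, hx, rfl⟩
    have h2 : x * (f (p x))⁻¹ ∈ p.ker := by
      rw [MonoidHom.mem_ker, map_mul, map_inv, h1, mul_inv_cancel]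
    have h3 : (⟨x * (f (p x))⁻¹, h2⟩ : p.ker) ∈ Subgroup.closure (T : Set p.ker) := by
      rw [hT]
      exact K.mul_mem hx (K.inv_mem (hf _))
    have h4 : x = x * (f (p x))⁻¹ * f (p x) := by group
    rw [h4]
    apply Subgroup.mul_mem
    · have h5 : ∀ y ∈ Subgroup.closure (T : Set p.ker), (y : Q) ∈ Subgroup.closure
          ((T.image (fun x : p.ker => (x : Q)) ∪ htor.toFinset.image f : Finset Q) : Set Q) := by
        intro y hy
        induction hy using Subgroup.closure_induction with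
        | mem y hy =>
          apply Subgroup.subset_closure
          rw [Finset.mem_coe, Finset.mem_union]
          exact Or.inl (Finset.mem_image.mpr ⟨y, hy, rfl⟩)
        | one => exact Subgroup.one_mem _
        | mul x y _ _ hx hy => exact Subgroup.mul_mem _ hx hy
        | inv x _ hx => exact Subgroup.inv_mem _ hx
      exact h5 _ h3
    · apply Subgroup.subset_closure
      rw [Finset.mem_coe, Finset.mem_union]
      exact Or.inr (Finset.mem_image.mpr ⟨p x, htor.mem_toFinset.mpr hxt, rfl⟩)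

include hB in
/-- the kernel is exhausted by the windows -/
theorem exhB (tr : Set Q) (htr : ∀ e : E, ∃ u ∈ tr, ∃ k : ℤ, e = (p t) ^ k * p u) (S0 : Set Q)
    (hn : Subgroup.normalClosure S0 = p.ker)
    (hS1 : ∀ u ∈ tr, ∀ x ∈ S0, ∃ s ∈ S, ((s : p.ker) : Q) = u * x * u⁻¹) (x : Q)
    (hx : x ∈ p.ker) : ∃ n : ℕ, ⟨x, hx⟩ ∈ W p t S (-n) n := by
  have hmono : ∀ n m : ℕ, n ≤ m → W p t S (-n) n ≤ W p t S (-m) m := by
    intro n m h
    exact W_mono p t S (by omega) (by omega)
  have key : ∀ y ∈ Subgroup.normalClosure S0, ∃ hy : y ∈ p.ker, ∃ n : ℕ,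
      ⟨y, hy⟩ ∈ W p t S (-n) n := by
    intro y hy
    unfold Subgroup.normalClosure at hy
    induction hy using Subgroup.closure_induction with
    | mem y hy =>
      have hyk : y ∈ p.ker := by
        rw [← hn]
        exact Subgroup.subset_closure hy
      obtain ⟨x, hx, c, hc⟩ := Group.mem_conjugatesOfSet_iff.mp hy
      obtain ⟨c, rfl⟩ := isConj_iff.mp ⟨c, hc⟩
      obtain ⟨u, hu, k, hk⟩ := htr (p c)
      obtain ⟨s, hs, hs'⟩ := hS1 u hu x hx
      have hxk : x ∈ p.ker := by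
        rw [← hn]
        exact Subgroup.subset_normalClosure hx
      have e1 : cj p c = cj p (t ^ k * u) := cj_eq p hB (by rw [hk, map_mul, map_zpow])
      have e2 : (⟨c * x * c⁻¹, hyk⟩ : p.ker) = ((cj p t) ^ k) s := by
        apply Subtype.ext
        rw [cj_zpow, hs']
        have e3 := congrArg (fun f : MulAut p.ker => ((f ⟨x, hxk⟩ : p.ker) : Q)) e1
        simp only [cj_apply] at e3
        change c * x * c⁻¹ = _
        rw [e3]
        group
      refine ⟨hyk, k.natAbs + 1, ?_⟩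
      rw [e2]
      apply Subgroup.subset_closure
      exact ⟨k, by omega, by omega, s, hs, rfl⟩
    | one => exact ⟨Subgroup.one_mem _, 0, Subgroup.one_mem _⟩
    | mul x y _ _ hx hy =>
      obtain ⟨h1, n, hn⟩ := hx
      obtain ⟨h2, m, hm⟩ := hy
      exact ⟨Subgroup.mul_mem _ h1 h2, max n m, Subgroup.mul_mem _
        (hmono _ _ (le_max_left _ _) hn) (hmono _ _ (le_max_right _ _) hm)⟩
    | inv x _ hx =>
      obtain ⟨h1, n, hn⟩ := hx
      exact ⟨Subgroup.inv_mem _ h1, n, Subgroup.inv_mem _ hn⟩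
  obtain ⟨_, n, hn⟩ := key x (by rw [hn]; exact hx)
  exact ⟨n, hn⟩

end

/-- existence of windows in `Q` -/
theorem exists_win {Q E : Type} [Group Q] [CommGroup E] [Countable Q] (p : Q →* E)
    (hp : Function.Surjective p) (hB : ∀ x ∈ p.ker, ∀ y ∈ p.ker, x * y = y * x) (t : Q)
    (hfi : (Subgroup.zpowers (p t)).FiniteIndex) (ht : ∀ k : ℤ, (p t) ^ k = 1 → k = 0)
    [Group.FG E] (S0 : Set Q) (hS0 : S0.Finite) (hn : Subgroup.normalClosure S0 = p.ker)
    (hW : T_WINA) :
    ∃ (S : Set p.ker) (g : E → Q) (w : ℕ), (∀ e, p (g e) = e) ∧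
      (CommGroup.torsion E : Set E).Finite ∧
      (∀ a b : ℤ, ∀ x ∈ V p t S g a b, ∀ hx : x ∈ p.ker, ⟨x, hx⟩ ∈ W p t S a b) ∧
      (∀ a b : ℤ, {K : Subgroup Q | K ≤ V p t S g a b}.Countable) ∧
      (∀ x : Q, p x ∈ CommGroup.torsion E → ∃ n : ℕ, x ∈ V p t S g (-n) n) ∧
      (∀ a b : ℤ, a + w ≤ b → ∀ x : p.ker, (∃ c, x ∈ W p t S c b) → (∃ c, x ∈ W p t S a c) →
        x ∈ W p t S a b) := by
  classical
  have htor := tor_fin (p t) hfi ht
  -- lifts
  choose g₀ hg₀ using hp
  let g : E → Q := fun e => if e = 1 then 1 else g₀ e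
  have hg : ∀ e, p (g e) = e := by
    intro e
    change p (if e = 1 then 1 else g₀ e) = e
    split_ifs with h
    · rw [h, map_one]
    · exact hg₀ e
  have hg1 : g 1 = 1 := if_pos rfl
  -- transversal
  have hfq : Finite (E ⧸ Subgroup.zpowers (p t)) := Subgroup.finite_quotient_of_finiteIndex
  let tr : Set Q := Set.range (fun e : E ⧸ Subgroup.zpowers (p t) => g (Quotient.out e))
  have htrf : tr.Finite := Set.finite_range _
  have htr : ∀ e : E, ∃ u ∈ tr, ∃ k : ℤ, e = (p t) ^ k * p u := by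
    intro e
    refine ⟨_, ⟨(e : E ⧸ Subgroup.zpowers (p t)), rfl⟩, ?_⟩
    have h1 : ((Quotient.out (e : E ⧸ Subgroup.zpowers (p t)) : E) : E ⧸ Subgroup.zpowers (p t))
      = e := Quotient.out_eq' _
    obtain ⟨k, hk⟩ := Subgroup.mem_zpowers_iff.mp (QuotientGroup.eq.mp h1)
    refine ⟨k, ?_⟩
    change e = p t ^ k * p (g _)
    rw [hk, hg, mul_assoc, mul_comm, mul_assoc, mul_inv_cancel, mul_one]
  -- the finite set
  let S' : Set p.ker := {z | (∃ u ∈ tr, ∃ x ∈ S0, (z : Q) = u * x * u⁻¹) ∨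
    (∃ q ∈ CommGroup.torsion E, ∃ q' ∈ CommGroup.torsion E,
      (z : Q) = g q * g q' * (g (q * q'))⁻¹) ∨
    (∃ q ∈ CommGroup.torsion E, (z : Q) = t * g q * t⁻¹ * (g q)⁻¹)}
  have hS' : S'.Finite := by
    have h1 : (Set.image2 (fun u x => u * x * u⁻¹) tr S0 ∪
        (Set.image2 (fun q q' => g q * g q' * (g (q * q'))⁻¹) (CommGroup.torsion E : Set E)
          (CommGroup.torsion E : Set E) ∪
        (fun q => t * g q * t⁻¹ * (g q)⁻¹) '' (CommGroup.torsion E : Set E))).Finite :=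
      (htrf.image2 _ hS0).union ((htor.image2 _ htor).union (htor.image _))
    apply Set.Finite.subset (h1.preimage (Subtype.val_injective (p := fun x => x ∈ p.ker)).injOn)
    rintro z (⟨u, hu, x, hx, h⟩ | ⟨q, hq, q', hq', h⟩ | ⟨q, hq, h⟩)
    · exact Or.inl ⟨u, hu, x, hx, h.symm⟩
    · exact Or.inr (Or.inl ⟨q, hq, q', hq', h.symm⟩)
    · exact Or.inr (Or.inr ⟨q, hq, h.symm⟩)
  let S : Set p.ker := Set.image2 (fun q y => cj p (g q) y) (CommGroup.torsion E : Set E) S'
  have hS : S.Finite := htor.image2 _ hS'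
  have hSS : ∀ s ∈ S', s ∈ S := by
    intro s hs
    refine ⟨1, Subgroup.one_mem _, s, hs, ?_⟩
    change cj p (g 1) s = s
    rw [hg1, map_one]
    rfl
  have hS4 : ∀ q ∈ CommGroup.torsion E, ∀ s ∈ S, cj p (g q) s ∈ S := by
    rintro q hq _ ⟨q', hq', y, hy, rfl⟩
    refine ⟨q * q', Subgroup.mul_mem _ hq hq', y, hy, ?_⟩
    change cj p (g (q * q')) y = cj p (g q) (cj p (g q') y)
    have : cj p (g (q * q')) = cj p (g q * g q') := cj_eq p hB (by rw [map_mul, hg, hg, hg])
    rw [this, map_mul]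
    rfl
  have hS2 : ∀ q ∈ CommGroup.torsion E, ∀ q' ∈ CommGroup.torsion E,
      ∃ s ∈ S, ((s : p.ker) : Q) = g q * g q' * (g (q * q'))⁻¹ := by
    intro q hq q' hq'
    have hk : g q * g q' * (g (q * q'))⁻¹ ∈ p.ker := by
      rw [MonoidHom.mem_ker, map_mul, map_mul, map_inv, hg, hg, hg, mul_inv_cancel]
    exact ⟨⟨_, hk⟩, hSS _ (Or.inr (Or.inl ⟨q, hq, q', hq', rfl⟩)), rfl⟩
  have hS3 : ∀ q ∈ CommGroup.torsion E,
      ∃ s ∈ S, ((s : p.ker) : Q) = t * g q * t⁻¹ * (g q)⁻¹ := by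
    intro q hq
    have hk : t * g q * t⁻¹ * (g q)⁻¹ ∈ p.ker := by
      rw [MonoidHom.mem_ker, map_mul, map_mul, map_mul, map_inv, map_inv, mul_comm (p t),
        mul_assoc (p (g q)), mul_inv_cancel, mul_one, mul_inv_cancel]
    exact ⟨⟨_, hk⟩, hSS _ (Or.inr (Or.inr ⟨q, hq, rfl⟩)), rfl⟩
  have hS1 : ∀ u ∈ tr, ∀ x ∈ S0, ∃ s ∈ S, ((s : p.ker) : Q) = u * x * u⁻¹ := by
    intro u hu x hx
    have hxk : x ∈ p.ker := by
      rw [← hn]
      exact Subgroup.subset_normalClosure hx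
    have hk : u * x * u⁻¹ ∈ p.ker := by
      rw [MonoidHom.mem_ker, map_mul, map_mul, map_inv, MonoidHom.mem_ker.mp hxk, mul_one,
        mul_inv_cancel]
    exact ⟨⟨_, hk⟩, hSS _ (Or.inl ⟨u, hu, x, hx, rfl⟩), rfl⟩
  let _ := cg p hB
  obtain ⟨w, hw⟩ := hW p.ker (cj p t) hS.toFinset
  refine ⟨S, g, w, hg, htor, ?_, ?_, ?_, ?_⟩
  · intro a b x hx hx'
    exact V_ker p hB t S g hg hS4 hS2 hS3 hg1 a b x hx hx'
  · intro a b
    exact count p hB t S g hg hS4 hS2 hS3 hg1 hS htor a b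
  · intro x hx
    have hk : x * (g (p x))⁻¹ ∈ p.ker := by
      rw [MonoidHom.mem_ker, map_mul, map_inv, hg, mul_inv_cancel]
    obtain ⟨n, hn⟩ := exhB p hB t S tr htr S0 hn hS1 _ hk
    refine ⟨n + 1, ?_⟩
    have e : x = x * (g (p x))⁻¹ * g (p x) := by group
    rw [e]
    apply Subgroup.mul_mem
    · exact V_mono p t S g (by push_cast; omega) (by push_cast; omega) (W_le_V p t S g _ hn)
    · apply Subgroup.subset_closure
      refine Or.inr ⟨0, by push_cast; omega, by push_cast; omega, p x, hx, by simp⟩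
  · intro a b hab x h1 h2
    have := hw a b hab x (by
      obtain ⟨c, hc⟩ := h1
      refine ⟨c, ?_⟩
      simp only [Set.Finite.mem_toFinset]
      exact hc) (by
      obtain ⟨c, hc⟩ := h2
      refine ⟨c, ?_⟩
      simp only [Set.Finite.mem_toFinset]
      exact hc)
    simp only [Set.Finite.mem_toFinset] at this
    exact this

end Pool.Agent.H21.PB.WIN
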